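import Mathlib
import Pool.Agent.X3.LinRuns

/-!
# The order of a linear recurrence which vanishes on residue classes of coprime moduli

The periodic part of the set of the zeros of a linear recurrence sequence consists of full residue
classes.  Let the sequence, of order `d` over an arbitrary field, vanish at the first `d` terms of
`r m` residue classes modulo `m` in arithmetic progression, for each `m` of a finite set `P` of pairwise
coprime moduli.  If it is not zero from the index `d` on then `∏ (r m + 1) ≤ d`, and this is sharp for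
all `P` and `r`.
-/

set_option autoImplicit false

namespace Pool.Agent.Results.MP_8d13b5_lc.CoprimeZeroClasses

open Polynomial

/-- the expansion of a product of values of polynomials at powers of roots of unity -/
lemma expand (P : Finset ℕ) (r : ℕ → ℕ) (z : ℕ → ℂ) :
    ∃ (ι : Type) (I : Finset ι) (c l : ι → ℂ), I.card = ∏ m ∈ P, (r m + 1) ∧
      ∀ n : ℕ, ∏ m ∈ P, ∏ j ∈ Finset.range (r m), (z m ^ n - z m ^ j) = ∑ p ∈ I, c p * l p ^ n := by
  classical
  obtain ⟨q, hq⟩ : ∃ q : ℕ → ℂ[X], q = fun m => ∏ j ∈ Finset.range (r m), (X - C (z m ^ j)) :=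
    ⟨_, rfl⟩
  refine ⟨_, P.pi fun m => Finset.range (r m + 1),
    fun p => ∏ x ∈ P.attach, (q x.1).coeff (p x.1 x.2),
    fun p => ∏ x ∈ P.attach, z x.1 ^ (p x.1 x.2), ?_, ?_⟩
  · rw [Finset.card_pi]
    simp
  · intro n
    have h1 : ∀ m ∈ P, ∏ j ∈ Finset.range (r m), (z m ^ n - z m ^ j) =
        ∑ i ∈ Finset.range (r m + 1), (q m).coeff i * (z m ^ n) ^ i := by
      intro m _
      have h2 : (q m).natDegree < r m + 1 := by
        rw [hq]
        have := natDegree_prod_le (Finset.range (r m)) fun j => (X - C (z m ^ j) : ℂ[X])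
        simp only [natDegree_X_sub_C, Finset.sum_const, Finset.card_range, smul_eq_mul,
          mul_one] at this
        simp only
        omega
      rw [← eval_eq_sum_range' h2, hq]
      simp [eval_prod]
    rw [Finset.prod_congr rfl h1, Finset.prod_sum]
    refine Finset.sum_congr rfl fun p _ => ?_
    rw [← Finset.prod_pow, ← Finset.prod_mul_distrib]
    refine Finset.prod_congr rfl fun x _ => ?_
    ring

/-- a sum of `D` geometric sequences satisfies a recurrence of order `D` -/
lemma recurrence {ι : Type} (I : Finset ι) (c l : ι → ℂ) :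
    ∃ E : LinearRecurrence ℂ, E.order = I.card ∧ E.IsSolution fun n => ∑ p ∈ I, c p * l p ^ n := by
  classical
  obtain ⟨f, hf⟩ : ∃ f : ℂ[X], f = ∏ p ∈ I, (X - C (l p)) := ⟨_, rfl⟩
  have hmon : f.Monic := by rw [hf]; exact monic_prod_of_monic _ _ fun p _ => monic_X_sub_C _
  have hdeg : f.natDegree = I.card := by
    rw [hf, natDegree_prod_of_monic _ _ fun p _ => monic_X_sub_C _]
    simp
  refine ⟨⟨I.card, fun i => - f.coeff i⟩, rfl, ?_⟩
  intro n
  simp only
  have hroot : ∀ p ∈ I, ∑ i ∈ Finset.range (I.card + 1), f.coeff i * l p ^ i = 0 := by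
    intro p hp
    rw [← eval_eq_sum_range' (by omega), hf, eval_prod]
    exact Finset.prod_eq_zero hp (by simp)
  have h1 : ∑ i ∈ Finset.range (I.card + 1), f.coeff i * ∑ p ∈ I, c p * l p ^ (n + i) = 0 := by
    simp only [Finset.mul_sum]
    rw [Finset.sum_comm]
    apply Finset.sum_eq_zero
    intro p hp
    have h2 := hroot p hp
    have h3 : ∑ i ∈ Finset.range (I.card + 1), f.coeff i * (c p * l p ^ (n + i)) =
        c p * l p ^ n * ∑ i ∈ Finset.range (I.card + 1), f.coeff i * l p ^ i := by
      rw [Finset.mul_sum]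
      refine Finset.sum_congr rfl fun i _ => ?_
      rw [pow_add]
      ring
    rw [h3, h2, mul_zero]
  rw [Finset.sum_range_succ] at h1
  have h4 : f.coeff I.card = 1 := by
    rw [← hdeg]
    exact hmon
  rw [h4, one_mul] at h1
  rw [eq_neg_of_add_eq_zero_right h1, ← Finset.sum_neg_distrib, Finset.sum_range]
  refine Finset.sum_congr rfl fun i _ => ?_
  ring

/-- **Sharpness.** -/
lemma sharp (P : Finset ℕ) (r : ℕ → ℕ) (hr : ∀ m ∈ P, r m < m) :
    ∃ (E : LinearRecurrence ℂ) (u : ℕ → ℂ), E.IsSolution u ∧ E.order = ∏ m ∈ P, (r m + 1) ∧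
      ∀ n, u n = 0 ↔ ∃ m ∈ P, n % m < r m := by
  classical
  obtain ⟨z, hz⟩ : ∃ z : ℕ → ℂ, z = fun m => Complex.exp (2 * Real.pi * Complex.I / (m : ℕ)) := ⟨_, rfl⟩
  obtain ⟨ι, I, c, l, hI, hu⟩ := expand P r z
  obtain ⟨E, hE, hsol⟩ := recurrence I c l
  refine ⟨E, _, hsol, by rw [hE, hI], fun n => ?_⟩
  rw [← hu n, Finset.prod_eq_zero_iff]
  constructor
  · rintro ⟨m, hm, h⟩
    obtain ⟨j, hj, hj2⟩ := Finset.prod_eq_zero_iff.1 h
    rw [Finset.mem_range] at hj
    refine ⟨m, hm, ?_⟩
    have hprim : IsPrimitiveRoot (z m) m := by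
      rw [hz]
      exact Complex.isPrimitiveRoot_exp m (by have := hr m hm; omega)
    have h2 := sub_eq_zero.1 hj2
    rw [pow_eq_pow_mod n hprim.pow_eq_one] at h2
    have hm0 : 0 < m := by have := hr m hm; omega
    have h3 := hprim.pow_inj (Nat.mod_lt n hm0) (by have := hr m hm; omega) h2
    omega
  · rintro ⟨m, hm, h⟩
    refine ⟨m, hm, Finset.prod_eq_zero (Finset.mem_range.2 h) ?_⟩
    have hprim : IsPrimitiveRoot (z m) m := by
      rw [hz]
      exact Complex.isPrimitiveRoot_exp m (by have := hr m hm; omega)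
    rw [sub_eq_zero]
    exact pow_eq_pow_mod n hprim.pow_eq_one

/-- a nonzero solution of a reversible recurrence is not zero from the index `order` on -/
lemma reversible {K : Type} [Field K] (E : LinearRecurrence K) (u : ℕ → K) (hu : E.IsSolution u)
    (h0 : 0 < E.order) (hc : E.coeffs ⟨0, h0⟩ ≠ 0) (hne : ∃ n, u n ≠ 0) :
    ∃ n, E.order ≤ n ∧ u n ≠ 0 := by
  by_contra hcon
  push Not at hcon
  obtain ⟨n, hn⟩ := hne
  have key : ∀ k, ∀ n, n + k = E.order → u n = 0 := by
    intro k
    induction k using Nat.strong_induction_on with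
    | _ k ih =>
      intro n hnk
      rcases Nat.eq_zero_or_pos k with hk | hk
      · exact hcon n (by omega)
      · have h1 := hu n
        rw [hcon (n + E.order) (by omega)] at h1
        have h2 : ∑ i : Fin E.order, E.coeffs i * u (n + i) = E.coeffs ⟨0, h0⟩ * u (n + 0) := by
          refine Finset.sum_eq_single (⟨0, h0⟩ : Fin E.order) ?_ ?_
          · intro i _ hi
            have hi0 : 0 < (i : ℕ) := by
              rcases Nat.eq_zero_or_pos (i : ℕ) with h | h
              · exact absurd (Fin.ext h) hi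
              · exact h
            have h3 : u (n + i) = 0 := by
              rcases Nat.lt_or_ge (n + (i : ℕ)) E.order with h | h
              · exact ih (E.order - (n + i)) (by omega) (n + i) (by omega)
              · exact hcon _ h
            rw [h3, mul_zero]
          · intro h
            exact absurd (Finset.mem_univ _) h
        rw [h2, add_zero] at h1
        exact (mul_eq_zero.1 h1.symm).resolve_left hc
  rcases Nat.lt_or_ge n E.order with h | h
  · exact hn (key (E.order - n) n (by omega))
  · exact hn (hcon n h)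

/-- (1) Let `u` satisfy a linear recurrence of order `d` over a field `K`, with `u n ≠ 0` for some
`n ≥ d` (for a recurrence with nonzero last coefficient this means that `u` is not zero). Let `P` be a finite set of pairwise coprime positive integers, and for every `m ∈ P` let
`r m` residue classes `a m + j g m`, `0 ≤ j < r m`, modulo `m` be given, with `g m` coprime to `m`, so
that `u` vanishes at the first `d` terms `a m + j g m + m t`, `0 ≤ t < d`, of each of them. Then
`∏ (r m + 1) ≤ d`.

(2) In particular, if `u` vanishes at the first `d` terms of one residue class modulo `m` for each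
`m ∈ P`, then `2 ^ |P| ≤ d`.

(3) The bound (1) is sharp: for every finite set `P` of positive integers and all `r m < m` there is a
complex sequence which satisfies a linear recurrence of order `∏ (r m + 1)` and whose zeros are
exactly the `n` with `n mod m < r m` for some `m ∈ P`. -/
theorem result :
    (∀ (K : Type) [Field K] (E : LinearRecurrence K) (u : ℕ → K), E.IsSolution u →
      ((∃ n, E.order ≤ n ∧ u n ≠ 0) ∨
        ∃ h0 : 0 < E.order, E.coeffs ⟨0, h0⟩ ≠ 0 ∧ ∃ n, u n ≠ 0) →
      ∀ P : Finset ℕ, (∀ m ∈ P, 0 < m) →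
      (P : Set ℕ).Pairwise Nat.Coprime →
      (∀ r a g : ℕ → ℕ, (∀ m ∈ P, (g m).Coprime m) →
        (∀ m ∈ P, ∀ j < r m, ∀ t < E.order, u (a m + j * g m + m * t) = 0) →
        ∏ m ∈ P, (r m + 1) ≤ E.order) ∧
      (∀ a : ℕ → ℕ, (∀ m ∈ P, ∀ t < E.order, u (a m + m * t) = 0) → 2 ^ P.card ≤ E.order)) ∧
    (∀ (P : Finset ℕ) (r : ℕ → ℕ), (∀ m ∈ P, r m < m) →
      ∃ (E : LinearRecurrence ℂ) (u : ℕ → ℂ), E.IsSolution u ∧ E.order = ∏ m ∈ P, (r m + 1) ∧
        ∀ n, u n = 0 ↔ ∃ m ∈ P, n % m < r m) := by
  refine ⟨?_, sharp⟩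
  intro K _ E u hu hne' P hP hcop
  have hne : ∃ n, E.order ≤ n ∧ u n ≠ 0 := by
    rcases hne' with h | ⟨h0, hc, h⟩
    · exact h
    · exact reversible E u hu h0 hc h
  have hmem : u ∈ E.solSpace := hu
  have key : ∀ r a g : ℕ → ℕ, (∀ m ∈ P, (g m).Coprime m) →
      (∀ m ∈ P, ∀ j < r m, ∀ t < E.order, u (a m + j * g m + m * t) = 0) →
      ∏ m ∈ P, (r m + 1) ≤ E.order := by
    intro r a g hg hz
    refine Pool.Agent.X3.LinRuns.order_bound hmem P hP hcop r a g hg ?_ hne
    intro m hm j hj
    have h1 := Pool.Agent.X3.LinMult.zero_class hmem (hz m hm j hj)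
    unfold Pool.Agent.X3.LinRuns.Z
    rw [Filter.eventually_atTop]
    refine ⟨a m + j * g m, fun n hn hmod => ?_⟩
    obtain ⟨s, hs⟩ := (Nat.modEq_iff_dvd' hn).1 hmod.symm
    have h2 : n = a m + j * g m + m * s := by omega
    rw [h2]
    exact h1 s
  refine ⟨key, fun a hz => ?_⟩
  have h1 := key (fun _ => 1) a (fun _ => 1) (fun m _ => Nat.coprime_one_left m) (by
    intro m hm j hj t ht
    have hj0 : j = 0 := by omega
    subst hj0
    simpa using hz m hm t ht)
  simpa using h1

end Pool.Agent.Results.MP_8d13b5_lc.CoprimeZeroClasses
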