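import Pool.Agent.X22.SKP

/-!
# The Skolem Problem for inputs changed at few digits

Changing few digits (as few as one likes, at random places) of arbitrary numbers, and applying arbitrary unimodular affine maps, one obtains inputs of the Skolem Problem for which
a positive proportion of the small primes are certificates that there is no zero.
-/

set_option autoImplicit false

namespace Pool.Agent.Results.MP_8d13b5_lc.FewDigitInputs

open Finset Polynomial

/-- `u` is the sequence with the coefficients `c_1, ..., c_k` and the initial values `a`: `u_(n + k) = ∑ c_i u_(n + k - i)`. -/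
def IsSeq {R : Type} [CommRing R] {k : ℕ} (c a : Fin k → R) (u : ℕ → R) : Prop :=
  (∀ i : Fin k, u i = a i) ∧ ∀ n, u (n + k) = ∑ i : Fin k, c i * u (n + k - 1 - i)

/-- The characteristic polynomial `X ^ k - ∑ c_i X ^ (k - i)`. -/
noncomputable def charPoly {k : ℕ} (c : Fin k → ℤ) : ℤ[X] :=
  X ^ k - ∑ i : Fin k, C (c i) * X ^ (k - 1 - (i : ℕ))

/-- Integers are coded as differences of two natural numbers. -/
def code {k : ℕ} (x : Fin k → ℤ) : List (ℕ × ℕ) := List.ofFn fun i => ((x i).toNat, (-(x i)).toNat)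

/-- Modulo `p` the sequence has period `(p - 1) / 2`, and `p` divides no term. -/
def Certifies {k : ℕ} (c a : Fin k → ℤ) (p : ℕ) : Prop :=
  ∀ u, IsSeq c a u → (∀ n, (p : ℤ) ∣ u (n + (p - 1) / 2) - u n) ∧ ∀ n, ¬ (p : ℤ) ∣ u n

/-- The initial values modulo `p` for which the sequence over `ℤ/p` has period `(p - 1) / 2` and no zero. -/
def goodInitial {k : ℕ} (c : Fin k → ℤ) (p : ℕ) : Set (Fin k → ZMod p) :=
  {a | ∀ u, IsSeq (fun i => ((c i : ℤ) : ZMod p)) a u → (∀ n, u (n + (p - 1) / 2) = u n) ∧ ∀ n, u n ≠ 0}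

open Classical in
/-- The odd primes `p ≤ x` for which at least half of the initial values modulo `p` are good. -/
noncomputable def helpful {k : ℕ} (c : Fin k → ℤ) (x : ℕ) : Finset ℕ :=
  (Icc 3 x).filter (fun p => p.Prime ∧ (1 / 2 : ℝ) * (p : ℝ) ^ k ≤ Nat.card (goodInitial c p))

/-- The image `e + T m` of the vector `m`. -/
def image {D : ℕ} (e : Fin D → ℤ) (T : Matrix (Fin D) (Fin D) ℤ) (m : Fin D → ℕ) : Fin D → ℤ :=
  fun i => e i + ∑ j, T i j * (m j : ℤ)

/-- The digit number `i` (counted from the right, beginning with `0`) of `n` in base `b`. -/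
def digit (b i n : ℕ) : ℕ := n / b ^ i % b

/-- The number which arises from the number `N` with at most `K` digits in base `b`, if for every `i ∈ S`
the digit number `i` is replaced by `f i`. -/
def change (b K N : ℕ) (f : ℕ → ℕ) (S : Finset ℕ) : ℕ :=
  ∑ i ∈ range K, (if i ∈ S then f i else digit b i N) * b ^ i

open Classical in
/-- The number of the choices of `s l` of `K l` positions for all `l < d` for which the vector of the numbers obtained by
changing the digits of the `N l` at the chosen positions (according to `f l`) does not have the property `E`. -/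
noncomputable def exceptions {d : ℕ} (b : ℕ) (K s N : Fin d → ℕ) (f : Fin d → ℕ → ℕ) (E : (Fin d → ℕ) → Prop) : ℕ :=
  ((Fintype.piFinset (fun l => powersetCard (s l) (range (K l)))).filter
    (fun S => ¬ E (fun l => change b (K l) (N l) (f l) (S l)))).card

open Pool.Agent.X22.SKP

open Classical in
/-- **The Skolem Problem for few-digit inputs.**

* One computable function `f` decides whether some prime `q ≤ y` divides no term of a given sequence (of any order); so it never errs if it is used to recognise sequences without zero.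
* Coefficients and initial values: let `b ≥ 2`, `k ≥ 1`, `A` be given. For all but a proportion `1 / y ^ A` of the changes of `r_l` digits of arbitrary `2 k` numbers `N_l`, for all `x` with
`y ≤ x ≤ exp (c r_l)` and all unimodular affine maps `m ↦ e + T m` from any prescribed set of at most `x ^ A` maps, at least `κ π (x)` of the primes up to `x` certify that the recurrence sequence of order `k`
with the data `e + T m` (coefficients and initial values) has no zero.
* Fixed recurrences: if only the initial values are changed, the same holds for all recurrences of a prescribed set of pairs of a recurrence `C` and an affine map, with at least one quarter of the helpful primes, if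
there are at least `x ^ θ` of these.
* For every recurrence with squarefree characteristic polynomial and `c_k ≠ 0` there are at least `x ^ θ` helpful primes, for some `θ > 0` and all large `x`. -/
theorem result :
    (∃ f : ℕ × (List (ℕ × ℕ) × List (ℕ × ℕ)) → Bool, Computable f ∧
      ∀ (k : ℕ) (hk : 1 ≤ k) (c a : Fin k → ℤ), c ⟨k - 1, by omega⟩ ≠ 0 → ∀ y : ℕ,
        (f (y, (code c, code a)) = true ↔ ∃ q : ℕ, q ≤ y ∧ q.Prime ∧ ∀ u, IsSeq c a u → ∀ n, ¬ (q : ℤ) ∣ u n)) ∧
    (∀ b k A : ℕ, 2 ≤ b → 1 ≤ k → ∃ κ : ℝ, 0 < κ ∧ ∃ c : ℝ, 0 < c ∧ ∃ y₀ : ℕ,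
      ∀ (K r : Fin (k + k) → ℕ) (y : ℕ), (∀ l, 2 * r l ≤ K l) → y₀ ≤ y →
      ∀ N : Fin (k + k) → ℕ, (∀ l, N l < b ^ K l) → ∀ f : Fin (k + k) → ℕ → ℕ, (∀ l j, f l j < b ∧ f l j ≠ digit b j (N l)) →
      ∀ (ι : Type) (e : ι → Fin (k + k) → ℤ) (T : ι → Matrix (Fin (k + k)) (Fin (k + k)) ℤ) (Λ : ℕ → Finset ι),
        (∀ i, IsUnit (T i).det) → (∀ x, (Λ x).card ≤ x ^ A) →
        (exceptions b K r N f (fun m => ∀ x : ℕ, y ≤ x → (∀ l, (x : ℝ) ≤ Real.exp (c * r l)) → ∀ i ∈ Λ x,
          κ * (((Icc 1 x).filter Nat.Prime).card : ℝ) ≤ (((Icc 1 x).filter (fun p => p.Prime ∧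
            Certifies (fun j => image (e i) (T i) m (Fin.castAdd k j)) (fun j => image (e i) (T i) m (Fin.natAdd k j)) p)).card : ℝ)) : ℝ) ≤
          1 / (y : ℝ) ^ A * ∏ l, ((K l).choose (r l) : ℝ)) ∧
    (∀ b k A : ℕ, ∀ θ : ℝ, 2 ≤ b → 1 ≤ k → 0 < θ → ∃ c : ℝ, 0 < c ∧ ∃ y₀ : ℕ,
      ∀ (K r : Fin k → ℕ) (y : ℕ), (∀ l, 2 * r l ≤ K l) → y₀ ≤ y →
      ∀ N : Fin k → ℕ, (∀ l, N l < b ^ K l) → ∀ f : Fin k → ℕ → ℕ, (∀ l j, f l j < b ∧ f l j ≠ digit b j (N l)) →
      ∀ (ι : Type) (C : ι → Fin k → ℤ) (e : ι → Fin k → ℤ) (T : ι → Matrix (Fin k) (Fin k) ℤ) (Λ : ℕ → Finset ι),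
        (∀ i, IsUnit (T i).det) → (∀ x, (Λ x).card ≤ x ^ A) → (∀ x, y ≤ x → ∀ i ∈ Λ x, (x : ℝ) ^ θ ≤ (helpful (C i) x).card) →
        (exceptions b K r N f (fun m => ∀ x : ℕ, y ≤ x → (∀ l, (x : ℝ) ≤ Real.exp (c * r l)) → ∀ i ∈ Λ x,
          1 / 4 * ((helpful (C i) x).card : ℝ) ≤ (((helpful (C i) x).filter (fun p => Certifies (C i) (image (e i) (T i) m) p)).card : ℝ)) : ℝ) ≤
          1 / (y : ℝ) ^ A * ∏ l, ((K l).choose (r l) : ℝ)) ∧
    (∀ (k : ℕ) (hk : 1 ≤ k) (c : Fin k → ℤ), c ⟨k - 1, by omega⟩ ≠ 0 → Squarefree ((charPoly c).map (Int.castRingHom ℚ)) →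
      ∃ θ : ℝ, 0 < θ ∧ ∃ x₀ : ℕ, ∀ x : ℕ, x₀ ≤ x → (x : ℝ) ^ θ ≤ (helpful c x).card) := by
  refine ⟨?_, ?_, ?_, ?_⟩
  · obtain ⟨f, hf, h⟩ := Pool.Agent.H684R3.Smo.t10
    refine ⟨f, hf, fun k hk c a hc y => ?_⟩
    obtain ⟨u₀, hu₀⟩ := Pool.Agent.H884R2.Sko.exists_isSeq c a
    have h1 := h y (code c, code a) u₀ (Pool.Agent.H884R2.Sko.isLRS_code hk c a hc hu₀)
    rw [h1]
    constructor
    · rintro ⟨q, h2, h3, h4⟩
      refine ⟨q, h2, h3, fun u hu n => ?_⟩
      have e : u = u₀ := funext (fun n => ((Pool.Agent.H884R2.Sko.isSeq_iff c a u).1 hu n).trans ((Pool.Agent.H884R2.Sko.isSeq_iff c a u₀).1 hu₀ n).symm)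
      rw [e]
      exact h4 n
    · rintro ⟨q, h2, h3, h4⟩
      exact ⟨q, h2, h3, h4 u₀ hu₀⟩
  · intro b k A hb hk
    obtain ⟨κ, hκ, c, hc, y₀, h⟩ := input_law b k hb hk A
    refine ⟨κ, hκ, c, hc, y₀, fun K r y hrK hy N hN f hf ι e T Λ hT hΛ => ?_⟩
    have h2 := h K r y hrK hy N hN f hf ι (fun i => ⟨e i, T i, hT i⟩) Λ (fun x _ => hΛ x)
      (fun m => ∀ x : ℕ, y ≤ x → (∀ l, (x : ℝ) ≤ Real.exp (c * r l)) → ∀ i ∈ Λ x,
          κ * (((Icc 1 x).filter Nat.Prime).card : ℝ) ≤ (((Icc 1 x).filter (fun p => p.Prime ∧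
            Certifies (fun j => image (e i) (T i) m (Fin.castAdd k j)) (fun j => image (e i) (T i) m (Fin.natAdd k j)) p)).card : ℝ))
      (fun m hm => hm)
    unfold exceptions
    exact h2
  · intro b k A θ hb hk hθ
    obtain ⟨c, hc, y₀, h⟩ := fixed_law b k hb hk θ hθ A
    refine ⟨c, hc, y₀, fun K r y hrK hy N hN f hf ι C e T Λ hT hΛ hH => ?_⟩
    have h2 := h K r y hrK hy N hN f hf ι C (fun i => ⟨e i, T i, hT i⟩) Λ (fun x _ => hΛ x) hH
      (fun m => ∀ x : ℕ, y ≤ x → (∀ l, (x : ℝ) ≤ Real.exp (c * r l)) → ∀ i ∈ Λ x,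
          1 / 4 * ((helpful (C i) x).card : ℝ) ≤ (((helpful (C i) x).filter (fun p => Certifies (C i) (image (e i) (T i) m) p)).card : ℝ))
      (fun m hm => hm)
    unfold exceptions
    exact h2
  · intro k hk c hc hsq
    exact helpful_card hk c hc hsq

end Pool.Agent.Results.MP_8d13b5_lc.FewDigitInputs
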