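import Pool.Agent.Results.MP_8d13b5_lc.AllSmallPolynomials
import Pool.Agent.X174.WinRat

/-!
# The Skolem Problem: ALL inputs in cubes around thin sequences of points, and all small polynomial expressions

Consider `s` linear recurrence sequences of orders `d_1, …, d_s` with integral coefficients and initial values; the data form
a vector in `ℤ^(2 D)`, `D = d_1 + … + d_s ≥ 1`. There are `A, δ > 0` such that for every sequence `v ≥ 1` of exponent of
convergence at most `τ` (for `v_i = (i + 1) ^ a` this is `1 / a`, for `v_i = b ^ i` it is `0`) and every `ρ < 1`, outside a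
set of `x ∈ ℝ^(2 D)` of Hausdorff dimension at most `(2 D - δ + τ) / (1 - ρ)`, for all but finitely many `i`: for ALL integral
data in the cube with centre `x v_i` and side `2 v_i ^ ρ` and ALL nonzero polynomials `G` of degree at most `r` in each
variable with integral coefficients of absolute value at most `v_i ^ δ`, the sequence `G(c, u_j(n + i))` has no zero term, and
if the coefficients of `G` have no common divisor, some prime `p ≤ (log v_i) ^ A` divides none of its terms and one algorithm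
recognises this.

The number of exceptions is from the starting result `AllSmallPolynomials`.
-/

set_option autoImplicit false

open Filter

namespace Pool.Agent.Results.MP_8d13b5_lc.SequencesInCubes

open AllSmallPolynomials (Easy Idx value)
open Pool.Agent.H684R3.Smo Pool.Agent.H884R2.Sko Pool.Agent.H692R2.USS

/-- the exponent of convergence of the sequence `v` is at most `τ` -/
def ExpLe (v : ℕ → ℝ) (τ : ℝ) : Prop := ∀ t : ℝ, τ < t → Summable (fun n : ℕ => (v n) ^ (-t))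

/-- **Theorem.** There is a total computable function `f`, which never recognises a linear recurrence sequence with a zero
term, with the following property. Let `s, r ≥ 0`, `d_1, …, d_s` with `D = ∑ d_j ≥ 1`. There are `A, δ > 0` such that for
every sequence `v ≥ 1` of exponent of convergence at most `τ ≥ 0` and every `ρ < 1` there is a set `E ⊂ ℝ^(2 D)` of Hausdorff
dimension at most `(2 D - δ + τ) / (1 - ρ)` such that for each `x` outside `E`, for all but finitely many `i`, ALL integral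
vectors `w` with `|w_q - x_q v_i| ≤ v_i ^ ρ` satisfy `Easy f d r (v_i ^ δ) ((log v_i) ^ A) w`. The sequences
`v_i = (i + 1) ^ a` and `v_i = b ^ i` have exponent of convergence at most `1 / a` and `0`. -/
theorem result :
    (∃ f : ℕ × (List (ℕ × ℕ) × List (ℕ × ℕ)) → Bool, Computable f ∧
      (∀ (y : ℕ) (z : List (ℕ × ℕ) × List (ℕ × ℕ)) (u : ℕ → ℤ), IsLRS z u → f (y, z) = true → ∀ n, u n ≠ 0) ∧
      ∀ (s r : ℕ) (d : Fin s → ℕ), 1 ≤ ∑ j, d j → ∃ A δ : ℝ, 0 < A ∧ 0 < δ ∧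
        ∀ (v : ℕ → ℝ) (τ ρ : ℝ), (∀ i, 1 ≤ v i) → 0 ≤ τ → ExpLe v τ → ρ < 1 →
        ∃ E : Set (Idx d ⊕ Idx d → ℝ),
          dimH E ≤ ENNReal.ofReal ((2 * ((∑ j, d j : ℕ) : ℝ) - δ + τ) / (1 - ρ)) ∧
          ∀ x : Idx d ⊕ Idx d → ℝ, x ∉ E → ∃ i₀ : ℕ, ∀ i : ℕ, i₀ ≤ i → ∀ w : Idx d ⊕ Idx d → ℤ,
            (∀ q, |(w q : ℝ) - x q * v i| ≤ (v i) ^ ρ) → Easy f d r ((v i) ^ δ) (Real.log (v i) ^ A) w) ∧
    (∀ a : ℝ, 0 < a → ExpLe (fun n : ℕ => ((n : ℝ) + 1) ^ a) (1 / a)) ∧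
    (∀ b : ℝ, 1 < b → ExpLe (fun n : ℕ => b ^ n) 0) := by
  classical
  refine ⟨?_, fun κ hκ => Pool.Agent.Y854.GM.expLe_pow κ hκ, fun b hb => Pool.Agent.Y854.GM.expLe_geom b hb⟩
  obtain ⟨f, hf, hfe⟩ := t10
  refine ⟨f, hf, fun y z u hu ht n hn => ?_, fun s r d hD => ?_⟩
  · obtain ⟨q, _, _, hq⟩ := (hfe y z u hu).1 ht
    apply hq n
    rw [hn]
    exact dvd_zero _
  obtain ⟨A, δ₀, hA, hδ₀, H₁, h⟩ := Pool.Agent.TH838.SK.main s r d
  have hcard : Fintype.card (Idx d ⊕ Idx d) = 2 * ∑ j, d j := by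
    rw [Fintype.card_sum, Fintype.card_sigma]
    simp only [Fintype.card_fin]
    ring
  set N : ℕ := ∑ j, d j with hN
  have hN1 : (1 : ℝ) ≤ N := by exact_mod_cast hD
  set δ : ℝ := min δ₀ 1 with hδ
  have hδa : δ ≤ δ₀ := min_le_left _ _
  have hδb : δ ≤ 1 := min_le_right _ _
  have hδ0 : 0 < δ := lt_min hδ₀ one_pos
  have hs : 0 ≤ 2 * (N : ℝ) - δ := by linarith
  refine ⟨A + 1, δ, by linarith, hδ0, fun v τ ρ hv hτ hE hρ => ?_⟩
  have hvp : ∀ i, 0 < v i := fun i => lt_of_lt_of_le one_pos (hv i)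
  have htv : Tendsto v atTop atTop := Pool.Agent.Y854.GM.tendsto_of_expLe hvp hτ hE
  -- the exceptional sets
  set L : ℕ := H₁ + 2 with hL
  have hL2 : (2 : ℝ) ≤ L := by rw [hL]; push_cast; linarith [(Nat.cast_nonneg H₁ : (0 : ℝ) ≤ H₁)]
  set Hh : ℝ → ℕ := fun T => ⌈L * T⌉₊ with hHh
  have hHT : ∀ T : ℝ, 1 ≤ T → (L : ℝ) * T ≤ Hh T ∧ (Hh T : ℝ) ≤ (L + 1) * T ∧ H₁ ≤ Hh T := by
    intro T hT
    have h0 : (L : ℝ) * T ≤ Hh T := Nat.le_ceil _
    refine ⟨h0, ?_, ?_⟩
    · have := (Nat.ceil_lt_add_one (a := (L : ℝ) * T) (by positivity)).le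
      calc (Hh T : ℝ) ≤ L * T + 1 := this
        _ ≤ (L + 1) * T := by linarith
    · have h1 : (H₁ : ℝ) ≤ Hh T := by
        have h2 : (H₁ : ℝ) ≤ L := by rw [hL]; push_cast; linarith
        nlinarith
      exact_mod_cast h1
  obtain ⟨E, hE1, hE2⟩ := Pool.Agent.X174.winFam (κ := Idx d ⊕ Idx d) (Q := Idx d ⊕ Idx d → ℤ)
    (fun w q => (w q : ℝ))
    (fun T => {w : Idx d ⊕ Idx d → ℤ | w ∈ bx (0 : Idx d ⊕ Idx d → ℤ) (Hh T) ∧
      ¬ Pool.Agent.TH838.SK.Easy d r ((Hh T : ℝ) ^ δ₀) (Real.log (Hh T) ^ A) w})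
    (s := 2 * (N : ℝ) - δ) (C := (3 * (L + 1) : ℝ) ^ (2 * N)) hs
    (fun T hT => by
      obtain ⟨h1, h2, h3⟩ := hHT T hT
      have hfin := finite_sub (0 : Idx d ⊕ Idx d → ℤ) (Hh T)
        (fun x => ¬ Pool.Agent.TH838.SK.Easy d r ((Hh T : ℝ) ^ δ₀) (Real.log (Hh T) ^ A) x)
      refine ⟨Set.toFinite _, ?_⟩
      have h4 := h (Hh T) h3 0
      have hH1 : (1 : ℝ) ≤ Hh T := by nlinarith
      have hHp : (0 : ℝ) < Hh T := by linarith
      have hLT : T ≤ (Hh T : ℝ) := by nlinarith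
      rw [← Nat.card_coe_set_eq]
      refine h4.trans ?_
      rw [hcard]
      have h5 : (2 * (Hh T : ℝ) + 1) ^ (2 * N) ≤ (3 * (L + 1) * T) ^ (2 * N) := by
        apply pow_le_pow_left₀ (by positivity)
        nlinarith
      have h6 : (Hh T : ℝ) ^ (-δ₀) ≤ T ^ (-δ) := by
        calc (Hh T : ℝ) ^ (-δ₀) ≤ (Hh T : ℝ) ^ (-δ) := Real.rpow_le_rpow_of_exponent_le hH1 (by linarith)
          _ ≤ T ^ (-δ) := Real.rpow_le_rpow_of_nonpos (by linarith) hLT (by linarith)
      calc (2 * (Hh T : ℝ) + 1) ^ (2 * N) * (Hh T : ℝ) ^ (-δ₀) ≤ (3 * (L + 1) * T) ^ (2 * N) * T ^ (-δ) := by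
            apply mul_le_mul h5 h6 (by positivity) (by positivity)
        _ = (3 * (L + 1) : ℝ) ^ (2 * N) * (T ^ (2 * N) * T ^ (-δ)) := by rw [mul_pow]; ring
        _ = (3 * (L + 1) : ℝ) ^ (2 * N) * T ^ (2 * (N : ℝ) - δ) := by
            rw [← Real.rpow_natCast T (2 * N), ← Real.rpow_add (by linarith)]
            push_cast
            ring_nf)
    hv hτ hE hρ
  refine ⟨E, by simpa using hE1, fun x hx => ?_⟩
  obtain ⟨R, hR, hRc⟩ := Pool.Agent.X174.le_of_cube x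
  obtain ⟨i₀, hi₀⟩ := hE2 x hx R hR
  have hR1 : (1 : ℝ) ≤ R := by exact_mod_cast hR
  have hRp : (0 : ℝ) < R := by linarith
  -- large `i`
  have hlog : Tendsto (fun i => Real.log (v i)) atTop atTop := Real.tendsto_log_atTop.comp htv
  obtain ⟨i₁, hi₁⟩ := (hlog.eventually_ge_atTop (max (Real.log ((L + 1) * R)) (2 ^ A))).exists_forall_of_atTop
  refine ⟨max i₀ i₁, fun i hi w hw => ?_⟩
  have hvi : 1 ≤ v i := hv i
  have hRv : 1 ≤ (R : ℝ) * v i := by nlinarith
  obtain ⟨h1, h2, h3⟩ := hHT (R * v i) hRv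
  have hLR : 1 ≤ ((L : ℝ) + 1) * R := by nlinarith
  have hH1 : (1 : ℝ) ≤ Hh (R * v i) := by nlinarith
  have hvH : v i ≤ (Hh (R * v i) : ℝ) := by nlinarith
  have hlogi := hi₁ i ((le_max_right _ _).trans hi)
  have hl1 : Real.log ((L + 1) * R) ≤ Real.log (v i) := (le_max_left _ _).trans hlogi
  have hl2 : (2 : ℝ) ^ A ≤ Real.log (v i) := (le_max_right _ _).trans hlogi
  have hl0 : 0 < Real.log (v i) := lt_of_lt_of_le (by positivity) hl2
  -- comparison of the parameters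
  have hX : (v i) ^ δ ≤ (Hh (R * v i) : ℝ) ^ δ₀ :=
    (Real.rpow_le_rpow_of_exponent_le hvi hδa).trans (Real.rpow_le_rpow (by linarith) hvH hδ₀.le)
  have hY : Real.log (Hh (R * v i)) ^ A ≤ Real.log (v i) ^ (A + 1) := by
    have h4 : Real.log (Hh (R * v i)) ≤ 2 * Real.log (v i) := by
      calc Real.log (Hh (R * v i)) ≤ Real.log ((L + 1) * R * v i) :=
            Real.log_le_log (by linarith) (by rw [mul_assoc]; exact h2)
        _ = Real.log ((L + 1) * R) + Real.log (v i) := Real.log_mul (by linarith) (by linarith)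
        _ ≤ 2 * Real.log (v i) := by linarith
    calc Real.log (Hh (R * v i)) ^ A ≤ (2 * Real.log (v i)) ^ A :=
          Real.rpow_le_rpow (Real.log_nonneg hH1) h4 hA.le
      _ = 2 ^ A * Real.log (v i) ^ A := Real.mul_rpow (by norm_num) hl0.le
      _ ≤ Real.log (v i) * Real.log (v i) ^ A := mul_le_mul_of_nonneg_right hl2 (by positivity)
      _ = Real.log (v i) ^ (A + 1) := by rw [Real.rpow_add_one hl0.ne', mul_comm]
  -- the vector is good
  have hgood : Pool.Agent.TH838.SK.Easy d r ((Hh (R * v i) : ℝ) ^ δ₀) (Real.log (Hh (R * v i)) ^ A) w := by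
    by_contra hcon
    refine hi₀ i ((le_max_left _ _).trans hi) w hw ⟨?_, hcon⟩
    unfold bx
    rw [Fintype.mem_piFinset]
    intro q
    rw [Finset.mem_Icc]
    have h4 := hRc (fun q => (w q : ℝ)) (v i) ρ hvi hρ hw q
    have h5 : |(w q : ℝ)| ≤ (Hh (R * v i) : ℝ) := h4.trans (by nlinarith)
    have h6 : |w q| ≤ (Hh (R * v i) : ℤ) := by exact_mod_cast h5
    have h7 := abs_le.1 h6
    simp only [Pi.zero_apply]
    constructor <;> linarith [h7.1, h7.2]
  intro u hu G hG0 hGX g hg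
  obtain ⟨h5, h6⟩ := hgood u hu G hG0 (fun e => (hGX e).trans hX)
  have hg' : g = Pool.Agent.TH838.SK.val G (fun q => w (Sum.inl q)) u := by
    funext n
    exact hg n
  rw [hg']
  refine ⟨h5, fun hprim => ?_⟩
  obtain ⟨p, hp, hpY, hpv⟩ := h6 hprim
  refine ⟨⟨p, hp, hpY.trans hY, hpv⟩, fun z hz => ?_⟩
  rw [hfe _ _ _ hz]
  exact ⟨p, Nat.le_floor (hpY.trans hY), hp, fun n => (hpv n).1⟩

end Pool.Agent.Results.MP_8d13b5_lc.SequencesInCubes
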