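import Pool.Agent.Results.MP_8d13b5_lc.AllSmallPolynomials
import Pool.Agent.X123.ML.Dyadic

/-!
# The Skolem Problem for ALL the recurrence sequences whose coefficients and initial values approximate almost every real vector

By Dirichlet's theorem every real vector `z` (normalised such that one coordinate is `1`) has infinitely many approximations
`x ∈ ℤ^m` with `|z_q - x_q / x_{q₀}| ≤ c |x| ^ (-m/(m-1))`. For almost all `z`, for ALL but finitely many of these `x`, and all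
nonzero polynomials `G` of degree at most `r` in each variable with integral coefficients of absolute value at most `|x| ^ δ`, the
sequence `G(c, u_j(n + i))`, where `u_1, …, u_s` are the recurrence sequences with coefficients and initial values `x`, has no zero,
and one algorithm proves this quickly. More generally this is true for the `x` near the points of any metric space outside a set of
small dimension.
-/

set_option autoImplicit false

open scoped ENNReal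

namespace Pool.Agent.Results.MP_8d13b5_lc.SequencesNearTargets

open MeasureTheory Pool.Agent.X123.ML
open Pool.Agent.H684R3.Smo Pool.Agent.H884R2.Sko Pool.Agent.H692R2.USS
open Pool.Agent.Results.MP_8d13b5_lc.AllSmallPolynomials

/-- `Easy f d r (H ^ δ) ((log H) ^ A) x` for some natural number `H` between `|x|` and `2 |x|` -/
def EasyAt (f : ℕ × (List (ℕ × ℕ) × List (ℕ × ℕ)) → Bool) {s : ℕ} (d : Fin s → ℕ) (r : ℕ) (δ A : ℝ)
    (x : Idx d ⊕ Idx d → ℤ) : Prop :=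
  ∃ H : ℕ, ‖x‖ ≤ H ∧ (H : ℝ) ≤ 2 * ‖x‖ ∧ Easy f d r ((H : ℝ) ^ δ) (Real.log H ^ A) x

lemma easyAt_mono {f : ℕ × (List (ℕ × ℕ) × List (ℕ × ℕ)) → Bool} {s : ℕ} {d : Fin s → ℕ} {r : ℕ} {δ δ' A : ℝ}
    (h0 : 0 < δ') (h : δ' ≤ δ) {x : Idx d ⊕ Idx d → ℤ} (hx : EasyAt f d r δ A x) : EasyAt f d r δ' A x := by
  obtain ⟨H, h1, h2, h3⟩ := hx
  refine ⟨H, h1, h2, fun u hu w hw hwX v hv => h3 u hu w hw (fun e => (hwX e).trans ?_) v hv⟩
  rcases Nat.eq_zero_or_pos H with h4 | h4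
  · rw [h4, Nat.cast_zero, Real.zero_rpow h0.ne', Real.zero_rpow (by linarith)]
  · exact Real.rpow_le_rpow_of_exponent_le (by exact_mod_cast h4) h

/-- **Theorem.** There is a computable function `f` with `f(y, z) = true` only if the linear recurrence sequence coded by `z` has no
zero, such that for all `s`, `r`, `d_1, …, d_s` with `D = ∑ d_j ≥ 1` there are `A, δ > 0` with the following properties. (1) Let
`σ` be a map from `ℤ^(2D)` to a metric space and `τ > 0`. There is a set `E` of Hausdorff dimension at most `(2 D - δ) / τ` such that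
for each `z` outside `E`, ALL but finitely many `x ∈ ℤ^(2D)` with `dist(z, σ(x)) ≤ |x| ^ (-τ)` satisfy `EasyAt f d r δ A x`. (2) For
every index `q₀`, almost all real `z = (z_q)_{q ≠ q₀}` and all `c`, ALL but finitely many `x ∈ ℤ^(2D)` with
`|z_q - x_q / x_{q₀}| ≤ c |x| ^ (-2D/(2D-1))` for all `q ≠ q₀` satisfy `EasyAt f d r δ A x`. -/
theorem result :
    ∃ f : ℕ × (List (ℕ × ℕ) × List (ℕ × ℕ)) → Bool, Computable f ∧
      (∀ (y : ℕ) (z : List (ℕ × ℕ) × List (ℕ × ℕ)) (v : ℕ → ℤ), IsLRS z v → f (y, z) = true →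
        ∀ n, v n ≠ 0) ∧
      ∀ (s r : ℕ) (d : Fin s → ℕ), 1 ≤ ∑ j, d j → ∃ A δ : ℝ, 0 < A ∧ 0 < δ ∧
        (∀ (M : Type) [MetricSpace M] (σ : (Idx d ⊕ Idx d → ℤ) → M) (τ : ℝ), 0 < τ →
          ∃ E : Set M, dimH E ≤ ENNReal.ofReal ((2 * ((∑ j, d j : ℕ) : ℝ) - δ) / τ) ∧
            ∀ z : M, z ∉ E → {x : Idx d ⊕ Idx d → ℤ |
              dist z (σ x) ≤ ‖x‖ ^ (-τ) ∧ ¬ EasyAt f d r δ A x}.Finite) ∧
        ∀ q₀ : Idx d ⊕ Idx d, ∀ᵐ z : {q : Idx d ⊕ Idx d // q ≠ q₀} → ℝ, ∀ c : ℝ,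
          {x : Idx d ⊕ Idx d → ℤ | (∀ q : {q : Idx d ⊕ Idx d // q ≠ q₀},
            |z q - (x q : ℝ) / (x q₀ : ℝ)| ≤
              c * ‖x‖ ^ (-((2 * ((∑ j, d j : ℕ) : ℝ)) / (2 * ((∑ j, d j : ℕ) : ℝ) - 1)))) ∧
            ¬ EasyAt f d r δ A x}.Finite := by
  obtain ⟨f, hf, hsound, hmain⟩ := AllSmallPolynomials.result
  refine ⟨f, hf, hsound, fun s r d hD => ?_⟩
  obtain ⟨A, δ, hA, hδ, H₀, hH⟩ := hmain s r d
  obtain ⟨D, hDdef⟩ : ∃ D : ℕ, D = ∑ j, d j := ⟨_, rfl⟩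
  rw [← hDdef] at hD hH ⊢
  have hD1 : (1 : ℝ) ≤ D := by exact_mod_cast hD
  obtain ⟨δ', hδ'⟩ : ∃ δ' : ℝ, δ' = min δ 1 := ⟨_, rfl⟩
  have h0 : 0 < δ' := by rw [hδ']; exact lt_min hδ one_pos
  have h1 : δ' ≤ 1 := by rw [hδ']; exact min_le_right _ _
  have h2 : δ' ≤ δ := by rw [hδ']; exact min_le_left _ _
  have hcard : Fintype.card (Idx d ⊕ Idx d) = 2 * D := by
    rw [Fintype.card_sum, Fintype.card_sigma, hDdef]
    simp only [Fintype.card_fin]
    ring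
  have hcardR : (Fintype.card (Idx d ⊕ Idx d) : ℝ) = 2 * D := by
    rw [hcard]; push_cast; ring
  -- the exceptions in the cubes with smaller exponents
  have hb : ∀ H : ℕ, H₀ ≤ H → 1 ≤ H → (Nat.card {x : Idx d ⊕ Idx d → ℤ // (∀ i, |x i| ≤ (H : ℤ)) ∧
      ¬ Easy f d r ((H : ℝ) ^ δ) (Real.log H ^ A) x} : ℝ) ≤
      3 ^ δ' * (2 * H + 1 : ℝ) ^ (2 * (D : ℝ) - δ') := by
    intro H hH0 hH1
    have h3 := hH H hH0 0
    simp only [Pi.zero_apply, sub_zero] at h3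
    have h4 := prop_bound hH1 (m := 2 * D) h0.le h2
    refine (h3.trans h4).trans (le_of_eq ?_)
    push_cast
    rfl
  obtain ⟨C', hC'⟩ := dyadic_count (fun H x => Easy f d r ((H : ℝ) ^ δ) (Real.log H ^ A) x)
    (by linarith : (0 : ℝ) ≤ 2 * (D : ℝ) - δ') hb (δ' / 2) (by linarith)
  have hset : {v : Idx d ⊕ Idx d → ℤ | ∀ H : ℕ, ‖v‖ ≤ H → (H : ℝ) ≤ 2 * ‖v‖ →
      ¬ Easy f d r ((H : ℝ) ^ δ) (Real.log H ^ A) v} = {v | ¬ EasyAt f d r δ A v} := by
    ext v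
    change (∀ H : ℕ, _ → _ → _) ↔ ¬ ∃ H : ℕ, _
    push Not
    rfl
  rw [hset] at hC'
  have hexp : 2 * (D : ℝ) - δ' + δ' / 2 = 2 * (D : ℝ) - δ' / 2 := by ring
  rw [hexp] at hC'
  have hsub : ∀ x : Idx d ⊕ Idx d → ℤ, ¬ EasyAt f d r (δ' / 2) A x → ¬ EasyAt f d r δ A x :=
    fun x hx h => hx (easyAt_mono (by linarith) (by linarith) h)
  refine ⟨A, δ' / 2, hA, by linarith, fun M _ σ τ hτ => ?_, fun q₀ => ?_⟩
  · obtain ⟨E, hE, hE2⟩ := near (I := Unit) (fun _ => {x : Idx d ⊕ Idx d → ℤ | ¬ EasyAt f d r δ A x})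
      (fun x => ‖x‖) (by linarith : (0 : ℝ) ≤ 2 * (D : ℝ) - δ' / 2) hτ
      (fun _ => vec_count _ (by linarith : (0 : ℝ) ≤ 2 * (D : ℝ) - δ' / 2) (R₀ := 1)
        (fun R _ hR1 => hC' R hR1)) σ
    exact ⟨E, hE, fun z hz => (hE2 z hz ()).subset fun x hx => ⟨hsub x hx.2, hx.1⟩⟩
  · have h3 := ratios_ae q₀ (by rw [hcard]; omega) {x : Idx d ⊕ Idx d → ℤ | ¬ EasyAt f d r δ A x}
      (by linarith : 0 < δ' / 2) (by linarith) (R₀ := 1) (C := C')
      (by rw [hcardR]; exact fun R _ hR1 => hC' R hR1)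
    rw [hcardR] at h3
    filter_upwards [h3] with z hz c
    exact (hz c).subset fun x hx => ⟨hsub x hx.2, hx.1⟩

end Pool.Agent.Results.MP_8d13b5_lc.SequencesNearTargets
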